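import Pool.Agent.Helper75.PX.Stmts2

/-! # Row EMB: splitting of a central simple algebra over the algebraic closure -/

set_option autoImplicit false

universe u

open Module TensorProduct

namespace Pool.Agent.Helper75.PX

theorem st_EMB (hS : ST_SIMP.{u}) : ST_EMB.{u} := by
  intro K A _ _ _ _ _ n hn hA
  have : FiniteDimensional K A := FiniteDimensional.of_finrank_pos (by rw [hA]; positivity)
  have : IsSimpleRing (AlgebraicClosure K ⊗[K] A) := hS K (AlgebraicClosure K) A
  obtain ⟨m, _, ⟨e⟩⟩ := IsSimpleRing.exists_algEquiv_matrix_of_isAlgClosed (AlgebraicClosure K)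
    (AlgebraicClosure K ⊗[K] A)
  have hm : m = n := by
    have h1 := e.toLinearEquiv.finrank_eq
    rw [Module.finrank_baseChange, Module.finrank_matrix, hA] at h1
    simp only [Fintype.card_fin, Module.finrank_self, mul_one] at h1
    exact Nat.pow_left_injective (n := 2) (by norm_num)
      (show (fun k => k ^ 2) m = (fun k => k ^ 2) n by
        simp only []
        rw [h1]
        ring)
  subst hm
  refine ⟨(e.toAlgHom.restrictScalars K).comp
    (Algebra.TensorProduct.includeRight : A →ₐ[K] AlgebraicClosure K ⊗[K] A), ?_⟩
  rw [Submodule.eq_top_iff']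
  intro M
  have key : ∀ z : AlgebraicClosure K ⊗[K] A, e z ∈ Submodule.span (AlgebraicClosure K)
      (Set.range ((e.toAlgHom.restrictScalars K).comp
        (Algebra.TensorProduct.includeRight : A →ₐ[K] AlgebraicClosure K ⊗[K] A))) := by
    intro z
    induction z using TensorProduct.induction_on with
    | zero => rw [map_zero]; exact Submodule.zero_mem _
    | tmul c a =>
      have h1 : c ⊗ₜ[K] a = c • ((1 : AlgebraicClosure K) ⊗ₜ[K] a) := by
        rw [TensorProduct.smul_tmul', smul_eq_mul, mul_one]
      rw [h1, map_smul]
      exact Submodule.smul_mem _ _ (Submodule.subset_span ⟨a, rfl⟩)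
    | add x y hx hy => rw [map_add]; exact Submodule.add_mem _ hx hy
  have h2 := key (e.symm M)
  rwa [e.apply_symm_apply] at h2

end Pool.Agent.Helper75.PX
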